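import Mathlib

namespace Pool.Agent.Results.MP_8b9c06_gt.Segment

open MeasureTheory Set Metric

/-- The Euclidean plane. -/
abbrev P := EuclideanSpace ℝ (Fin 2)

/-- A closed convex curve: the boundary of a compact convex set with nonempty interior. -/
def ConvexCurve (C : Set P) : Prop :=
  ∃ K : Set P, IsCompact K ∧ Convex ℝ K ∧ (interior K).Nonempty ∧ C = frontier K

/-- `C` is the level set of `F` at a level strictly above the minimum of `F`. -/
def IsLevel (F : P → ℝ) (C : Set P) : Prop := ∃ c : ℝ, (∃ z, F z < c) ∧ C = {z | F z = c}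

/-- `C` is a Hausdorff limit of multifocal ellipses. -/
def Approximable (C : Set P) : Prop :=
  ∀ ε : ℝ, 0 < ε → ∃ (n : ℕ) (x : Fin n → P) (D : Set P),
    IsLevel (fun z => ∑ i, dist z (x i)) D ∧ hausdorffEDist D C ≤ ENNReal.ofReal ε

/-- `C` is of generalized-ellipse form. The region `E` is bounded and open (possibly empty), the
curve is given by a `1`-Lipschitz parametrization on `[0, L]` (as the arc-length parametrization
is; `L = 0` when the curve is absent), and there are `m` points (possibly none). -/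
def GenForm (C : Set P) : Prop :=
  ∃ (E : Set P) (γ : ℝ → P) (L : ℝ) (m : ℕ) (p : Fin m → P),
    IsOpen E ∧ Bornology.IsBounded E ∧ LipschitzOnWith 1 γ (Icc 0 L) ∧
    IsLevel (fun z => (∫ y in E, dist z y) + (∫ t in Icc 0 L, dist z (γ t)) +
      ∑ j, dist z (p j)) C

/-- The point with coordinates `s`, `t`. -/
noncomputable def pt (s t : ℝ) : P := !₂[s, t]

theorem dist_pt (z : P) (s t : ℝ) : dist z (pt s t) ^ 2 = (z 0 - s) ^ 2 + (z 1 - t) ^ 2 := by
  rw [dist_eq_norm, EuclideanSpace.real_norm_sq_eq]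
  simp [pt, Fin.sum_univ_two]

theorem dist_sq (z y : P) : dist z y ^ 2 = (z 0 - y 0) ^ 2 + (z 1 - y 1) ^ 2 := by
  rw [dist_eq_norm, EuclideanSpace.real_norm_sq_eq]
  simp [Fin.sum_univ_two]

/-- The property of distance functions that rules out a segment in a proper level set. -/
def Good (G : P → ℝ) : Prop :=
  2 * G (pt 0 0) ≤ G (pt (-1) 0) + G (pt 1 0) ∧
    (G (pt (-1) 0) + G (pt 1 0) = 2 * G (pt 0 0) →
      ∀ z : P, G (pt 0 0) - z 0 * (G (pt (-1) 0) - G (pt 0 0)) ≤ G z)

theorem good_dist (y : P) : Good (fun z => dist z y) := by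
  have hA := dist_sq (pt (-1) 0) y
  have hB := dist_sq (pt 1 0) y
  have hN := dist_sq (pt 0 0) y
  have hA0 := @dist_nonneg _ _ (pt (-1) 0) y
  have hB0 := @dist_nonneg _ _ (pt 1 0) y
  have hN0 := @dist_nonneg _ _ (pt 0 0) y
  simp only [pt, Matrix.cons_val_zero, Matrix.cons_val_one] at hA hB hN
  constructor
  · have h : (2 : ℝ) • (pt 0 0 - y) = (pt (-1) 0 - y) + (pt 1 0 - y) := by
      ext i; fin_cases i <;> simp [pt] <;> ring
    have := norm_add_le (pt (-1) 0 - y) (pt 1 0 - y)
    rw [← h, norm_smul] at this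
    simpa [dist_eq_norm] using this
  · intro h z
    have hz := dist_sq z y
    have hz0 := @dist_nonneg _ _ z y
    simp only [pt] at *
    set A := dist (!₂[-1, 0] : P) y
    set B := dist (!₂[1, 0] : P) y
    set N := dist (!₂[0, 0] : P) y
    have hB' : B = 2 * N - A := by linarith
    have h1 : (A - N - 1) * (A - N + 1) = 0 := by rw [hB'] at hB; nlinarith
    have h2 : y 0 = (A - N) * N := by rw [hB'] at hB; nlinarith
    rcases mul_eq_zero.1 h1 with h1 | h1
    · have e : A - N = 1 := by linarith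
      rw [e] at h2 ⊢
      refine (abs_le_of_sq_le_sq' ?_ hz0).2
      rw [hz, h2]
      nlinarith [sq_nonneg (z 1 - y 1)]
    · have e : A - N = -1 := by linarith
      rw [e] at h2 ⊢
      refine (abs_le_of_sq_le_sq' ?_ hz0).2
      rw [hz, h2]
      nlinarith [sq_nonneg (z 1 - y 1)]

theorem good_add {F G : P → ℝ} (hF : Good F) (hG : Good G) : Good (fun z => F z + G z) := by
  refine ⟨by linarith [hF.1, hG.1], fun h z => ?_⟩
  have h1 := hF.2 (by linarith [hF.1, hG.1]) z
  have h2 := hG.2 (by linarith [hF.1, hG.1]) z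
  nlinarith

theorem good_int {α : Type*} [MeasurableSpace α] (ν : Measure α) (γ : α → P)
    (hi : ∀ z, Integrable (fun t => dist z (γ t)) ν) : Good (fun z => ∫ t, dist z (γ t) ∂ν) := by
  have e : ∫ t, (dist (pt (-1) 0) (γ t) + dist (pt 1 0) (γ t) - 2 * dist (pt 0 0) (γ t)) ∂ν =
      (∫ t, dist (pt (-1) 0) (γ t) ∂ν) + (∫ t, dist (pt 1 0) (γ t) ∂ν) -
        2 * ∫ t, dist (pt 0 0) (γ t) ∂ν := by
    rw [integral_sub (by exact (hi _).add (hi _)) ((hi _).const_mul 2),
      integral_add (hi _) (hi _), integral_const_mul]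
  have hn : 0 ≤ fun t =>
      dist (pt (-1) 0) (γ t) + dist (pt 1 0) (γ t) - 2 * dist (pt 0 0) (γ t) := fun t => by
    have := (good_dist (γ t)).1
    simp only [Pi.zero_apply] at *
    linarith
  constructor
  · have := integral_nonneg (μ := ν) hn
    rw [e] at this
    simp only
    linarith
  · intro h z
    simp only at h ⊢
    have h0 := (integral_eq_zero_iff_of_nonneg hn
      (((hi _).add (hi _)).sub ((hi _).const_mul 2))).1 (by rw [e]; linarith)
    have h1 : ∀ᵐ t ∂ν, dist (pt 0 0) (γ t) -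
        z 0 * (dist (pt (-1) 0) (γ t) - dist (pt 0 0) (γ t)) ≤ dist z (γ t) := by
      filter_upwards [h0] with t ht
      exact (good_dist (γ t)).2 (by simp only [Pi.zero_apply] at *; linarith) z
    have h2 : ∫ t, (dist (pt 0 0) (γ t) -
        z 0 * (dist (pt (-1) 0) (γ t) - dist (pt 0 0) (γ t))) ∂ν ≤ _ :=
      integral_mono_ae ((hi _).sub (((hi _).sub (hi _)).const_mul (z 0))) (hi z) h1
    rwa [integral_sub (hi _) (by exact ((hi _).sub (hi _)).const_mul (z 0)), integral_const_mul,
      integral_sub (hi _) (hi _)] at h2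

theorem good_sum {m : ℕ} (p : Fin m → P) : Good (fun z => ∑ j, dist z (p j)) := by
  induction m with
  | zero => simp [Good]
  | succ m ih =>
    simp only [Fin.sum_univ_succ]
    exact good_add (good_dist _) (ih _)

/-- The function whose zero set is the curve. -/
noncomputable def h (z : P) : ℝ := dist z (pt (-1) 0) + dist z (pt 1 0) - 2 - z 1

theorem h_cont : Continuous h := by unfold h; fun_prop

theorem h_seg (s : ℝ) (h1 : -1 ≤ s) (h2 : s ≤ 1) : h (pt s 0) = 0 := by
  have a := dist_pt (pt s 0) (-1) 0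
  have b := dist_pt (pt s 0) 1 0
  have a' : dist (pt s 0) (pt (-1) 0) = s + 1 :=
    (sq_eq_sq₀ dist_nonneg (by linarith)).1 (by rw [a]; simp [pt])
  have b' : dist (pt s 0) (pt 1 0) = 1 - s :=
    (sq_eq_sq₀ dist_nonneg (by linarith)).1 (by rw [b]; simp [pt]; ring)
  unfold h
  rw [a', b']
  simp [pt]
  ring

theorem not_level {G : P → ℝ} (hG : Good G) : ¬ IsLevel G {z | h z = 0} := by
  rintro ⟨c, ⟨z, hz⟩, e⟩
  have k : ∀ s : ℝ, -1 ≤ s → s ≤ 1 → G (pt s 0) = c := fun s a b => by
    have : pt s 0 ∈ {z | h z = 0} := h_seg s a b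
    rwa [e] at this
  have := hG.2 (by rw [k _ le_rfl (by norm_num), k 1 (by norm_num) le_rfl,
    k 0 (by norm_num) (by norm_num)]; ring) z
  rw [k _ le_rfl (by norm_num), k 0 (by norm_num) (by norm_num)] at this
  linarith

/-- The centre. -/
noncomputable def o : P := pt 0 (3 / 4)

theorem h_o : h o = -1 / 4 := by
  have a := dist_pt o (-1) 0
  have b := dist_pt o 1 0
  have a' : dist o (pt (-1) 0) = 5 / 4 :=
    (sq_eq_sq₀ dist_nonneg (by norm_num)).1 (by rw [a]; simp [o, pt]; norm_num)
  have b' : dist o (pt 1 0) = 5 / 4 :=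
    (sq_eq_sq₀ dist_nonneg (by norm_num)).1 (by rw [b]; simp [o, pt]; norm_num)
  unfold h
  rw [a', b']
  simp [o, pt]
  norm_num

theorem dist_cvx (y x z : P) (a b : ℝ) (ha : 0 ≤ a) (hb : 0 ≤ b) (hab : a + b = 1) :
    dist (a • x + b • z) y ≤ a * dist x y + b * dist z y := by
  have := (convexOn_univ_dist y).2 (mem_univ x) (mem_univ z) ha hb hab
  simpa using this

theorem h_cvx (x z : P) (a b : ℝ) (ha : 0 ≤ a) (hb : 0 ≤ b) (hab : a + b = 1) :
    h (a • x + b • z) ≤ a * h x + b * h z := by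
  have h1 := dist_cvx (pt (-1) 0) x z a b ha hb hab
  have h2 := dist_cvx (pt 1 0) x z a b ha hb hab
  unfold h
  simp only [PiLp.add_apply, PiLp.smul_apply, smul_eq_mul]
  nlinarith

theorem h_bdd (z : P) (hz : h z ≤ 0) : ‖z‖ ≤ 2 := by
  have h1 : (2 : ℝ) • z = (z - pt (-1) 0) + (z - pt 1 0) := by
    ext i; fin_cases i <;> simp [pt] <;> ring
  have h2 := norm_add_le (z - pt (-1) 0) (z - pt 1 0)
  rw [← h1, norm_smul] at h2
  have h3 : z 1 ≤ ‖z‖ := (le_abs_self _).trans (by simpa using PiLp.norm_apply_le z 1)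
  unfold h at hz
  simp only [dist_eq_norm, Real.norm_ofNat] at *
  linarith

theorem h_out (z : P) (s : ℝ) (hs : 1 ≤ s) :
    s * h z + (s - 1) / 4 ≤ h (o + s • (z - o)) := by
  have hs0 : 0 < s := by linarith
  have := h_cvx o (o + s • (z - o)) (1 - s⁻¹) s⁻¹
    (by rw [sub_nonneg]; exact inv_le_one_of_one_le₀ hs) (by positivity) (by ring)
  have e : (1 - s⁻¹) • o + s⁻¹ • (o + s • (z - o)) = z := by
    rw [smul_add, smul_smul, inv_mul_cancel₀ hs0.ne']
    module
  rw [e, h_o] at this
  have h2 := mul_le_mul_of_nonneg_left this hs0.le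
  have e2 : s * ((1 - s⁻¹) * (-1 / 4) + s⁻¹ * h (o + s • (z - o))) =
      -(s - 1) / 4 + h (o + s • (z - o)) := by field_simp
  linarith

theorem curve : ConvexCurve {z | h z = 0} := by
  refine ⟨{z | h z ≤ 0}, ?_, ?_, ⟨o, ?_⟩, ?_⟩
  · refine isCompact_of_isClosed_isBounded (isClosed_le h_cont continuous_const)
      (isBounded_iff_forall_norm_le.2 ⟨2, h_bdd⟩)
  · intro x hx z hz a b ha hb hab
    have := h_cvx x z a b ha hb hab
    simp only [mem_ofPred_eq] at *
    nlinarith
  · refine mem_interior.2 ⟨{z | h z < 0}, fun z (hz : h z < 0) => hz.le,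
      isOpen_lt h_cont continuous_const, ?_⟩
    rw [mem_ofPred_eq, h_o]; norm_num
  · refine Subset.antisymm (fun z hz => ?_) (frontier_le_subset_eq h_cont continuous_const)
    have hz' : h z = 0 := hz
    refine ⟨subset_closure hz'.le, fun hi => ?_⟩
    have c : ContinuousAt (fun s : ℝ => o + s • (z - o)) 1 := by fun_prop
    have := c.preimage_mem_nhds (t := {z | h z ≤ 0}) (by
      simpa using mem_interior_iff_mem_nhds.1 hi)
    obtain ⟨s, hs1, hs2⟩ := ((Filter.Eventually.filter_mono nhdsWithin_le_nhds this).and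
      (self_mem_nhdsWithin (s := Ioi (1 : ℝ)))).exists
    have h3 := h_out z s (le_of_lt hs2)
    have h4 : h (o + s • (z - o)) ≤ 0 := hs1
    have h5 : (1 : ℝ) < s := hs2
    rw [hz'] at h3
    linarith

theorem approx : Approximable {z | h z = 0} := by
  intro ε hε
  obtain ⟨δ, hδ, hδ1, hδ2⟩ : ∃ δ : ℝ, 0 < δ ∧ δ ≤ 1 / 8 ∧ 24 * δ ≤ ε :=
    ⟨min (1 / 8) (ε / 24), by positivity, min_le_left _ _, by
      linarith [min_le_right (1 / 8) (ε / 24)]⟩
  set R : ℝ := 2 + 2 / δ with hR
  have hR2 : 0 < 2 / δ := by positivity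
  let g : P → ℝ := fun z => dist z (pt (-1) 0) + dist z (pt 1 0) + dist z (pt 0 R) - (2 + R)
  have gc : Continuous g := by fun_prop
  have c1 : ∀ z : P, |z 0| ≤ ‖z‖ := fun z => by simpa using PiLp.norm_apply_le z 0
  have c2 : ∀ z : P, |z 1| ≤ ‖z‖ := fun z => by simpa using PiLp.norm_apply_le z 1
  have g1 : ∀ z, h z ≤ g z := fun z => by
    have a := dist_pt z 0 R
    have : R - z 1 ≤ dist z (pt 0 R) := abs_le_of_sq_le_sq' (by nlinarith) dist_nonneg |>.2
    simp only [g, h]; linarith
  have g2 : ∀ z, h z ≤ 0 → g z ≤ h z + δ := fun z hz => by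
    have a := dist_pt z 0 R
    have b := h_bdd z hz
    have b1 := abs_le.1 ((c1 z).trans b)
    have b2 := abs_le.1 ((c2 z).trans b)
    have e : δ * (2 / δ) = 2 := by field_simp
    have : dist z (pt 0 R) ≤ R - z 1 + δ :=
      abs_le_of_sq_le_sq' (by nlinarith) (by linarith) |>.2
    simp only [g, h]; linarith
  have go : g o = -1 / 4 := by
    have a := dist_pt o 0 R
    have a' : dist o (pt 0 R) = R - 3 / 4 :=
      (sq_eq_sq₀ dist_nonneg (by linarith)).1 (by rw [a]; simp [o, pt]; ring)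
    have b := h_o
    have e : o 1 = 3 / 4 := by simp [o, pt]
    simp only [g, h] at *
    linarith
  have no : ‖o‖ ≤ 1 := by
    have := dist_pt o 0 0
    have e : pt 0 0 = 0 := by ext i; fin_cases i <;> simp [pt]
    rw [e, dist_zero_right] at this
    refine abs_le_of_sq_le_sq' ?_ (by norm_num) |>.2
    rw [this]; simp [o, pt]; norm_num
  have near : ∀ (z : P) (s : ℝ), h z ≤ 0 → |s - 1| ≤ 8 * δ →
      edist z (o + s • (z - o)) ≤ ENNReal.ofReal ε := fun z s hz hs => by
    rw [edist_dist]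
    refine ENNReal.ofReal_le_ofReal ?_
    have e : z - (o + s • (z - o)) = (1 - s) • (z - o) := by module
    rw [dist_eq_norm, e, norm_smul, Real.norm_eq_abs, abs_sub_comm]
    have := norm_sub_le z o
    have := h_bdd z hz
    nlinarith [abs_nonneg (s - 1), norm_nonneg (z - o)]
  refine ⟨3, ![pt (-1) 0, pt 1 0, pt 0 R], {z | g z = 0}, ⟨2 + R, ⟨o, ?_⟩, ?_⟩, ?_⟩
  · simp only [Fin.sum_univ_three, g] at *
    simp only [Matrix.cons_val_zero, Matrix.cons_val_one, Matrix.cons_val]
    linarith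
  · ext z
    simp only [Fin.sum_univ_three, g, mem_ofPred_eq, sub_eq_zero]
    simp only [Matrix.cons_val_zero, Matrix.cons_val_one, Matrix.cons_val]
  · refine hausdorffEDist_le_of_mem_edist (fun z hz => ?_) (fun z hz => ?_)
    · have hz' : g z = 0 := hz
      have hz0 : h z ≤ 0 := (g1 z).trans hz'.le
      have a := g2 z hz0
      have b := h_out z (1 + 8 * δ) (by linarith)
      have c : ContinuousOn (fun s : ℝ => h (o + s • (z - o))) (Icc 1 (1 + 8 * δ)) :=
        (h_cont.comp (by fun_prop)).continuousOn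
      obtain ⟨s, hs, e⟩ := intermediate_value_Icc (by linarith) c
        (show (0 : ℝ) ∈ _ from ⟨by simpa using hz0, by nlinarith⟩)
      exact ⟨_, e, near z s hz0 (abs_le.2 ⟨by linarith [hs.1], by linarith [hs.2]⟩)⟩
    · have hz' : h z = 0 := hz
      have a := g2 z hz'.le
      have a' := g1 z
      have c : ContinuousOn (fun s : ℝ => g (o + s • (z - o))) (Icc (1 - 4 * δ) 1) :=
        (gc.comp (by fun_prop)).continuousOn
      have b : g (o + (1 - 4 * δ) • (z - o)) ≤ 0 := by
        have e : o + (1 - 4 * δ) • (z - o) = (4 * δ) • o + (1 - 4 * δ) • z := by module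
        have k := fun y => dist_cvx y o z (4 * δ) (1 - 4 * δ) (by linarith) (by linarith)
          (by ring)
        have k1 := k (pt (-1) 0)
        have k2 := k (pt 1 0)
        have k3 := k (pt 0 R)
        rw [e]
        simp only [g] at *
        nlinarith
      obtain ⟨s, hs, e⟩ := intermediate_value_Icc (by linarith) c
        (show (0 : ℝ) ∈ _ from ⟨b, by simpa using hz' ▸ a'⟩)
      exact ⟨_, e, near z s hz'.le (abs_le.2 ⟨by linarith [hs.1], by linarith [hs.2]⟩)⟩

theorem result : ∃ C : Set P, ConvexCurve C ∧ Approximable C ∧ ¬ GenForm C ∧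
    ∀ μ : Measure P, (∀ z, Integrable (fun y => dist z y) μ) →
      ¬ IsLevel (fun z => ∫ y, dist z y ∂μ) C := by
  refine ⟨_, curve, approx, ?_, fun μ hμ => not_level (good_int μ id hμ)⟩
  rintro ⟨E, γ, L, m, p, hE, hb, hγ, hl⟩
  refine not_level (good_add (good_add (good_int _ id fun z => ?_)
    (good_int _ γ fun z => ?_)) (good_sum p)) hl
  · exact ((by fun_prop : Continuous fun y : P => dist z y).continuousOn.integrableOn_compact
      hb.isCompact_closure).mono_set subset_closure
  · exact ((continuous_const.dist continuous_id).comp_continuousOn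
      hγ.continuousOn).integrableOn_compact isCompact_Icc

end Pool.Agent.Results.MP_8b9c06_gt.Segment
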